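import Pool.Agent.Run7.h479.XX.Odd

/-!
# The odd part of the Birch–Swinnerton-Dyer formula in analytic rank one by numbers of points

Let `E` be a minimal Weierstrass equation over `ℤ`, `K` the imaginary quadratic field of discriminant `D`,
`χ` its character, and `L(s) = L(E/K, s)` with a simple zero at `s = 1`. For all primes `p` outside a
finite set there are `α_{p,1}, α_{p,2}`, of absolute value at most `√p`, such that
`#E(𝔽_q) = q + 1 - α_{p,1}^e - α_{p,2}^e` for `q = p ^ e`. For `γ > π/2` and `T > 0` put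

`W(T) = -∑_p ∑_{k ≥ 1} (α_{p,1}^k + α_{p,2}^k) (1 + χ(p)^k) / (k p^k) · exp(iγ k log p / T) / Γ(1 + k log p / T)`

(with the corresponding terms at the finitely many other primes, those dividing both `D` and the
conductor). The series converges absolutely, and

`W(T) = log T - Λ_γ - log |L'(E/K, 1)| + π i z + O(1/T)`,

where `z` is the number of the zeros of `L(E/K, s)` in the real interval `(1, ∞)`. Thus
`exp(W(T)) / T → e^{-Λ_γ} / L'(E/K, 1)`. Nothing is assumed about the zeros.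

As the quotient of the two sides of `(*)` is a rational number, `(*)` holds for ALL odd primes `p` if and only
if this quotient is `± 2^a`. So Q1 for `E`, `K` and all odd `p` says that

`exp(W(T_k)) / T_k → ± 2^a e^{-Λ_γ} √|D| #E(K)_tors² / (Ω R Tam #Sha)`

for an integer `a` and one sequence `T_k → ∞`: a statement about the numbers of the points of `E` over finite
fields.

The law for the sums `W(T)` is the theorem of helper453, first handed in as `MP_15b3df_nt.TraceLimitFormula`, in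
his library `Pool.Agent.Run7.h453.PC`; new is the combination with the valuations at the odd primes.
-/

set_option autoImplicit false

open Filter Topology Set

namespace Pool.Agent.Results.MP_23455a_nt.PointCountFormula

/-- The number of the points of the projective curve with the Weierstrass equation `E` over the field `κ`
(including a singular point, if there is one). -/
noncomputable def points (E : WeierstrassCurve ℤ) (κ : Type) [Field κ] : ℕ :=
  1 + Nat.card {u : κ × κ // (E.map (Int.castRingHom κ)).toAffine.Equation u.1 u.2}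

/-- `χ(p)` for the quadratic field of discriminant `D`. -/
def chi (D : ℤ) (p : ℕ) : ℤ :=
  if p = 2 then (if D % 2 = 0 then 0 else if D % 8 = 1 then 1 else -1) else jacobiSym D p

/-- `L(s) = L(E/K, s)`, `K` the quadratic field of discriminant `D`: the parameters of the Euler factor at
`p ∉ S` are `α_{p,1}, α_{p,2}, χ(p) α_{p,1}, χ(p) α_{p,2}`, where the `α_{p,j}` have absolute value at most
`√p` and give the numbers of points; at the primes in `S` (which divide `D` and the conductor) they are the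
zeros of a real polynomial, of absolute value at most `√p`. `L` is the Euler product for `Re s > 3/2` and
entire. -/
structure IsLFunction (E : WeierstrassCurve ℤ) (D : ℤ) (S : Finset Nat.Primes)
    (β : Nat.Primes → Fin 4 → ℂ) (L : ℂ → ℂ) : Prop where
  good : ∀ p ∉ S, (∀ j, ‖β p j‖ ≤ √(p : ℕ)) ∧ β p 2 = chi D p * β p 0 ∧ β p 3 = chi D p * β p 1 ∧
    ∀ (κ : Type) [Field κ] [Finite κ] (e : ℕ), Nat.card κ = (p : ℕ) ^ e →
      (points E κ : ℂ) = ((p : ℕ) : ℂ) ^ e + 1 - (β p 0 ^ e + β p 1 ^ e)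
  bad : ∀ p ∈ S, (∀ j, ‖β p j‖ ≤ √(p : ℕ)) ∧
    ∃ P : Polynomial ℝ, P.map (algebraMap ℝ ℂ) = ∏ j, (Polynomial.X - Polynomial.C (β p j))
  prod : ∀ s : ℂ, 3 / 2 < s.re → L s = ∏' p : Nat.Primes, ∏ j, (1 - β p j * ((p : ℕ) : ℂ) ^ (-s))⁻¹
  entire : Differentiable ℂ L

/-- The weight `exp(iγ t / T) / Γ(1 + t / T)`. -/
noncomputable def weight (γ T t : ℝ) : ℂ :=
  Complex.exp ((γ * (t / T) : ℝ) * Complex.I) * ((Real.Gamma (1 + t / T))⁻¹ : ℝ)

/-- The term of `W(T)` for `p = x.1` and `k = x.2 + 1`. -/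
noncomputable def term (β : Nat.Primes → Fin 4 → ℂ) (γ T : ℝ) (x : Nat.Primes × ℕ) : ℂ :=
  -((∑ j, β x.1 j ^ (x.2 + 1)) / ((x.2 + 1) * ((x.1 : ℕ) : ℂ) ^ (x.2 + 1))) *
    weight γ T ((x.2 + 1) * Real.log (x.1 : ℕ))

/-- `W(T)` -/
noncomputable def W (β : Nat.Primes → Fin 4 → ℂ) (γ T : ℝ) : ℂ := ∑' x, term β γ T x

/-- `Λ_γ = ∫_0^∞ (e^{-u} - e^{iγu} / Γ(1 + u)) du / u` -/
noncomputable def Lam (γ : ℝ) : ℂ := ∫ u in Set.Ioi (0 : ℝ),
  (Complex.exp (-(u : ℂ)) - Complex.exp ((γ * u : ℝ) * Complex.I) * ((Real.Gamma (1 + u))⁻¹ : ℝ)) / u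

/-- The number `z` of the zeros of `L` in the interval `(1, ∞)`, with multiplicity. -/
noncomputable def zeros (L : ℂ → ℂ) : ℤ :=
  ∑ᶠ x ∈ Set.Ioi (1 : ℝ), (meromorphicOrderAt L (x : ℂ)).untop₀

section proof

variable {E : WeierstrassCurve ℤ} {D : ℤ} {S : Finset Nat.Primes}
  {β : Nat.Primes → Fin 4 → ℂ} {L : ℂ → ℂ}

theorem IsLFunction.norm (h : IsLFunction E D S β L) (p : Nat.Primes) (j : Fin 4) :
    ‖β p j‖ ≤ ((p : ℕ) : ℝ) ^ (1 / 2 : ℝ) := by
  rw [← Real.sqrt_eq_rpow]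
  by_cases hp : p ∈ S
  · exact (h.bad p hp).1 j
  · exact (h.good p hp).1 j

theorem IsLFunction.re (h : IsLFunction E D S β L) (p : Nat.Primes) (k : ℕ) :
    (∑ j, β p j ^ (k + 1)).im = 0 := by
  by_cases hp : p ∈ S
  · exact Pool.Agent.N41.RM.psum_real_of_stable (Pool.Agent.N41.RM.conj_stable (h.bad p hp).2) _
  · have : Fact (p : ℕ).Prime := ⟨p.2⟩
    obtain ⟨-, h2, h3, h4⟩ := h.good p hp
    have h1 := h4 (GaloisField p (k + 1)) (k + 1) (GaloisField.card _ _ k.succ_ne_zero)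
    have h5 : β p 0 ^ (k + 1) + β p 1 ^ (k + 1) = ((((p : ℕ) : ℝ) ^ (k + 1) + 1 -
        (points E (GaloisField p (k + 1)) : ℝ) : ℝ) : ℂ) := by
      push_cast
      rw [h1]
      ring
    have h6 : ∑ j, β p j ^ (k + 1) = (((((p : ℕ) : ℝ) ^ (k + 1) + 1 -
        (points E (GaloisField p (k + 1)) : ℝ)) * (1 + (chi D p : ℝ) ^ (k + 1)) : ℝ) : ℂ) := by
      rw [Complex.ofReal_mul, ← h5]
      have : ∑ j, β p j ^ (k + 1) = β p 0 ^ (k + 1) + β p 1 ^ (k + 1) + β p 2 ^ (k + 1) +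
          β p 3 ^ (k + 1) := Fin.sum_univ_four _
      rw [this, h2, h3]
      push_cast
      ring
    rw [h6, Complex.ofReal_im]

theorem IsLFunction.eg (h : IsLFunction E D S β L) :
    Pool.Agent.N41.RM.EG (1 / 2 : ℝ) (fun p : Nat.Primes => ((p : ℕ) : ℝ)) β where
  two_le := fun p => by exact_mod_cast p.2.two_le
  sum := fun σ hσ => by
    have := (Nat.Primes.summable_rpow (r := -σ)).2 (by linarith)
    exact this
  ha := h.norm
  real := h.re

theorem term_eq (γ T : ℝ) (h : IsLFunction E D S β L) (x : Nat.Primes × ℕ) :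
    term β γ T x = Pool.Agent.Run7.h453.PC.aterm (fun p : Nat.Primes => ((p : ℕ) : ℝ)) β
      (1 : ℝ) γ T x := by
  have hq0 : (0 : ℝ) < ((x.1 : ℕ) : ℝ) := by exact_mod_cast x.1.2.pos
  have e3 : ((∑ j, β x.1 j ^ (x.2 + 1)).re : ℂ) = ∑ j, β x.1 j ^ (x.2 + 1) := by
    apply Complex.ext
    · simp
    · rw [h.re x.1 x.2, Complex.ofReal_im]
  have e1 : Real.exp (-((1 : ℝ) * ((x.2 + 1) * Real.log (x.1 : ℕ)))) =
      (((x.1 : ℕ) : ℝ) ^ (x.2 + 1))⁻¹ := by
    rw [← Real.rpow_natCast, ← Real.rpow_neg hq0.le, Real.rpow_def_of_pos hq0]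
    congr 1
    push_cast
    ring
  unfold term Pool.Agent.Run7.h453.PC.aterm Pool.Agent.Run7.h453.PC.cs Pool.Agent.N41.RM.cq
    Pool.Agent.N41.RM.fq weight Pool.Agent.W189.ML.om
  rw [e1]
  push_cast
  rw [e3, div_mul_eq_div_div]
  ring

end proof

/-- The sum of the powers of the parameters at a prime `p ∉ S`, by the numbers of points. -/
def PointFormula (E : WeierstrassCurve ℤ) (D : ℤ) (S : Finset Nat.Primes)
    (β : Nat.Primes → Fin 4 → ℂ) : Prop :=
  ∀ p ∉ S, ∀ (κ : Type) [Field κ] [Finite κ] (k : ℕ), Nat.card κ = (p : ℕ) ^ (k + 1) →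
    ∑ j, β p j ^ (k + 1) =
      (((p : ℕ) : ℂ) ^ (k + 1) + 1 - points E κ) * (1 + (chi D p : ℂ) ^ (k + 1))

/-- **Theorem.** Let `L = L(E/K, s)` (`IsLFunction`), `L(1) = 0`, `L'(1) ≠ 0` and `γ > π/2`.

* `W(T)` converges absolutely for `T > 0`, is given by the numbers of points (`PointFormula`), and `L'(1)` is a
  real number `c ≠ 0` with `W(T) = log T - Λ_γ - log |c| + π i z + O(1/T)`.
* `exp(W(T)) / T → e^{-Λ_γ} / L'(1)`.
* Let `Ω`, `R` be positive real numbers, `t`, `Tam`, `Sha` positive integers, and `√|D| L'(1) / (Ω R)` the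
  rational number `B`. Then `B` and `Tam · Sha / t²` have the same valuation at all odd primes if and
  only if `exp(W(T_k)) / T_k → ± 2^a e^{-Λ_γ} √|D| t² / (Ω R Tam Sha)` for an integer `a`, a sign and one
  sequence `T_k → ∞`. -/
theorem result (E : WeierstrassCurve ℤ) (D : ℤ) (hD : D ≠ 0) (S : Finset Nat.Primes)
    (β : Nat.Primes → Fin 4 → ℂ) (L : ℂ → ℂ) (h : IsLFunction E D S β L) (h0 : L 1 = 0)
    (h0' : deriv L 1 ≠ 0) (γ : ℝ) (hγ : Real.pi / 2 < γ) :
    (∀ T : ℝ, 0 < T → Summable fun x => ‖term β γ T x‖) ∧ PointFormula E D S β ∧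
    (∃ c : ℝ, c ≠ 0 ∧ deriv L 1 = c ∧
      (fun T : ℝ => W β γ T - (Real.log T - Lam γ - Real.log |c| +
        Real.pi * (zeros L : ℂ) * Complex.I)) =O[atTop] (fun T : ℝ => 1 / T)) ∧
    Tendsto (fun T : ℝ => Complex.exp (W β γ T) / (T : ℂ)) atTop
      (𝓝 (Complex.exp (-Lam γ) / deriv L 1)) ∧
    ∀ (Ω R : ℝ) (t Tam Sha : ℕ) (B : ℚ), 0 < Ω → 0 < R → 0 < t → 0 < Tam → 0 < Sha →
      (√|(D : ℝ)| : ℂ) * deriv L 1 / (Ω * R) = B →
      ((∀ p : ℕ, p.Prime → p ≠ 2 → padicValRat p B = padicValRat p ((Tam * Sha : ℚ) / t ^ 2)) ↔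
        ∃ (a : ℤ) (ε : ℚ) (T : ℕ → ℝ), (ε = 1 ∨ ε = -1) ∧ Tendsto T atTop atTop ∧
          Tendsto (fun k => Complex.exp (W β γ (T k)) / (T k : ℂ)) atTop
            (𝓝 (ε * 2 ^ a * Complex.exp (-Lam γ) * (√|(D : ℝ)| : ℂ) * t ^ 2 /
              (Ω * R * Tam * Sha)))) := by
  have E' := h.eg
  have hprod : ∀ s : ℂ, 1 + (1 / 2 : ℝ) < s.re → L s = ∏' p : Nat.Primes,
      ∏ j, (1 - β p j * (((p : ℕ) : ℝ) : ℂ) ^ (-s))⁻¹ := fun s hs => by
    rw [h.prod s (by linarith)]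
    simp only [Complex.ofReal_natCast]
  have e0 : ((1 : ℝ) : ℂ) = 1 := Complex.ofReal_one
  obtain ⟨c, hc, hd, h1, h2⟩ := Run7.h479.XX.law_one E' h.entire (σ₀ := 1) hprod
    (by rw [e0]; exact h0) (by rw [e0]; exact h0') hγ
  rw [e0] at hd
  have hWf : W β γ = fun T => ∑' x, Pool.Agent.Run7.h453.PC.aterm
      (fun p : Nat.Primes => ((p : ℕ) : ℝ)) β (1 : ℝ) γ T x :=
    funext fun T => tsum_congr fun x => term_eq γ T h x
  have hLam : Pool.Agent.W187.UR.Lam γ = Lam γ := rfl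
  have hz : Pool.Agent.N41.RM.excess L 1 = zeros L := rfl
  rw [hz, hLam] at h1
  rw [hLam] at h2
  have hcc : (c : ℂ) ≠ 0 := by exact_mod_cast hc
  have hlim : Tendsto (fun T : ℝ => Complex.exp (W β γ T) / (T : ℂ)) atTop
      (𝓝 (Complex.exp (-Lam γ) / c)) := by
    rw [hWf]
    exact h2
  have hA : Complex.exp (-Lam γ) ≠ 0 := Complex.exp_ne_zero _
  refine ⟨fun T hT => ?_, ?_, ⟨c, hc, hd, ?_⟩, by rw [hd]; exact hlim, ?_⟩
  · refine (Pool.Agent.Run7.h453.PC.aterm_summable E' (1 : ℝ) γ hT).congr fun x => ?_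
    rw [term_eq γ T h]
  · intro p hp κ _ _ k hk
    obtain ⟨-, h3, h4, h5⟩ := h.good p hp
    have h6 := h5 κ (k + 1) hk
    rw [Fin.sum_univ_four, h3, h4, h6]
    ring
  · rw [hWf]
    exact h1
  · intro Ω R t Tam Sha B hΩ hR ht hTam hSha hB
    rw [hd] at hB
    have hs : (√|(D : ℝ)| : ℝ) ≠ 0 := by
      have : (0 : ℝ) < |(D : ℝ)| := abs_pos.2 (by exact_mod_cast hD)
      exact (Real.sqrt_pos.2 this).ne'
    have hsc : (√|(D : ℝ)| : ℂ) ≠ 0 := by exact_mod_cast hs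
    have hΩc : (Ω : ℂ) ≠ 0 := by exact_mod_cast hΩ.ne'
    have hRc : (R : ℂ) ≠ 0 := by exact_mod_cast hR.ne'
    have htc : (t : ℂ) ≠ 0 := by exact_mod_cast ht.ne'
    have hTc : (Tam : ℂ) ≠ 0 := by exact_mod_cast hTam.ne'
    have hSc : (Sha : ℂ) ≠ 0 := by exact_mod_cast hSha.ne'
    have htq : (t : ℚ) ≠ 0 := by exact_mod_cast ht.ne'
    have hTq : (Tam : ℚ) ≠ 0 := by exact_mod_cast hTam.ne'
    have hSq : (Sha : ℚ) ≠ 0 := by exact_mod_cast hSha.ne'
    have hBc : (B : ℂ) ≠ 0 := by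
      rw [← hB]
      exact div_ne_zero (mul_ne_zero hsc hcc) (mul_ne_zero hΩc hRc)
    have hBq : B ≠ 0 := by exact_mod_cast hBc
    set M : ℚ := (Tam * Sha : ℚ) / t ^ 2 with hM
    have hMq : M ≠ 0 := div_ne_zero (mul_ne_zero hTq hSq) (pow_ne_zero _ htq)
    have hMc : (M : ℂ) = (Tam * Sha : ℂ) / t ^ 2 := by
      rw [hM]
      push_cast
      rfl
    have hval : (∀ p : ℕ, p.Prime → p ≠ 2 → padicValRat p B = padicValRat p M) ↔
        ∃ (a : ℤ) (ε : ℚ), (ε = 1 ∨ ε = -1) ∧ M / B = ε * 2 ^ a := by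
      rw [← Run7.h479.XX.odd_val (div_ne_zero hMq hBq)]
      refine forall_congr' fun p => forall_congr' fun hp => forall_congr' fun _ => ?_
      have hpf : Fact p.Prime := ⟨hp⟩
      rw [padicValRat.div hMq hBq]
      omega
    rw [hval]
    have hc' : (c : ℂ) = B * Ω * R / (√|(D : ℝ)| : ℂ) := by
      rw [← hB]
      field_simp
    constructor
    · rintro ⟨a, ε, hε, h7⟩
      refine ⟨a, ε, fun k => k, hε, tendsto_natCast_atTop_atTop, ?_⟩
      have h8 : (M : ℂ) / B = ε * 2 ^ a := by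
        have h10 := congrArg (fun r : ℚ => (r : ℂ)) h7
        simp only [Rat.cast_div, Rat.cast_mul, Rat.cast_zpow, Rat.cast_ofNat] at h10
        exact h10
      have h9 : (ε : ℂ) * 2 ^ a * Complex.exp (-Lam γ) * (√|(D : ℝ)| : ℂ) * t ^ 2 /
          (Ω * R * Tam * Sha) = Complex.exp (-Lam γ) / c := by
        rw [← h8, hMc, hc']
        field_simp
      rw [h9]
      exact hlim.comp tendsto_natCast_atTop_atTop
    · rintro ⟨a, ε, T, hε, hT, h7⟩
      refine ⟨a, ε, hε, ?_⟩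
      have h8 := tendsto_nhds_unique (hlim.comp hT) h7
      have h9 : (M : ℂ) / B = ε * 2 ^ a := by
        rw [hMc]
        rw [hc'] at h8
        have h10 : Complex.exp (-Lam γ) * (√|(D : ℝ)| : ℂ) / (Ω * R * B) =
            Complex.exp (-Lam γ) * (√|(D : ℝ)| : ℂ) / (Ω * R * B) *
              (ε * 2 ^ a * (t ^ 2 * B / (Tam * Sha))) := by
          calc _ = Complex.exp (-Lam γ) / (B * Ω * R / (√|(D : ℝ)| : ℂ)) := by field_simp
            _ = _ := h8
            _ = _ := by field_simp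
        have h11 : Complex.exp (-Lam γ) * (√|(D : ℝ)| : ℂ) / (Ω * R * B) ≠ 0 :=
          div_ne_zero (mul_ne_zero hA hsc) (mul_ne_zero (mul_ne_zero hΩc hRc) hBc)
        have h12 : (1 : ℂ) = ε * 2 ^ a * (t ^ 2 * B / (Tam * Sha)) := by
          refine mul_left_cancel₀ h11 ?_
          rw [mul_one]
          exact h10
        calc (Tam * Sha : ℂ) / t ^ 2 / B = 1 * ((Tam * Sha : ℂ) / t ^ 2 / B) := (one_mul _).symm
          _ = ε * 2 ^ a * (t ^ 2 * B / (Tam * Sha)) * ((Tam * Sha : ℂ) / t ^ 2 / B) := by rw [← h12]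
          _ = ε * 2 ^ a := by field_simp
      have h10 : ((M / B : ℚ) : ℂ) = ((ε * 2 ^ a : ℚ) : ℂ) := by
        simp only [Rat.cast_div, Rat.cast_mul, Rat.cast_zpow, Rat.cast_ofNat]
        exact h9
      exact Rat.cast_injective h10

end Pool.Agent.Results.MP_23455a_nt.PointCountFormula
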